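import Pool.Agent.H458R4.Sel2
import Pool.Agent.H458R4.Cohen2

/-!
# The Cohen model contains a selective independent family

* If `cov(M) = 𝔠` (Martin's axiom for Cohen forcing and fewer than `𝔠` dense sets) then there is
  a selective independent family.
* If `κ ^ ℵ₀ = κ > ℵ₀` then the forcing notion of all finite partial functions from `κ × ω` to `2`
  forces that `𝔠 ≤ κ` and that for each family of dense subsets of `ω^{<ω}` indexed by a set of
  size less than `κ` there is a sequence meeting all members of the family. So it forces the
  hypothesis of the first part. For `κ = ℵ₂` and a ground model of CH this is the Cohen model.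

The family of the first part is the union of an increasing sequence of length `𝔠` of pairs `(I, F)`
of small families such that all sets `⋂ A \ ⋃ B ∩ ⋂ G` (`A`, `B` disjoint finite subsets of `I` and
`G` a finite subset of `F`) are infinite. A set `X` is dealt with by adding to `F` the union of `X`
and of all the cells on which `X` is finite modulo a member of `F`; the members of `I` are generic
subsets of members of `F`; pseudo-intersections and selectors for `F` are given by Cohen reals.
-/

namespace Pool.Agent.Results.MP_4ce21c_lc.CohenSelective

open Cardinal Pool.Agent.Helper669.Forcing Pool.Agent.H458R4.Sel Pool.Agent.H458R4.Cohen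

/-- The existence of a selective independent family follows from `cov(M) = 𝔠`, and this hypothesis
is forced by adding `κ` Cohen reals if `κ ^ ℵ₀ = κ > ℵ₀`. -/
theorem result :
    (CohenMA → ∃ I : Set (Set ℕ), Selective I) ∧
    ∀ κ : Type, ℵ₀ < #κ → #κ ^ ℵ₀ = #κ → ∀ p : Fn κ,
      p ∈ ContinuumLe (Fn κ) κ ∧ ∀ J : Type, #J < #κ → p ∈ MeetsDense (Fn κ) J :=
  ⟨exists_selective, fun _ hκ hpow p => ⟨continuumLe hκ hpow p, fun _ hJ => meetsDense hκ hJ p⟩⟩

end Pool.Agent.Results.MP_4ce21c_lc.CohenSelective
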